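import Pool.Agent.H586.AF.E

/-! Task AH-SN (helper813): the scaling limit of the function `nn`.

The first part (periodic sums, the formula `nn_eq`) is copied from `Pool/Agent/H790/AF/N.lean` (helper790). -/

set_option autoImplicit false

open MeasureTheory Matrix Finset Filter Topology
open Pool.Agent.H586.AF

namespace Pool.Agent.H813.AH

/-! ### Periodic sums -/

/-- the sum over a window -/
noncomputable def W (f : ℤ → ℝ) (a : ℤ) (P : ℕ) : ℝ := ∑ n ∈ Finset.range P, f (a + n)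

theorem W_Ico (f : ℤ → ℝ) (a : ℤ) (P : ℕ) : ∑ z ∈ Finset.Ico a (a + P), f z = W f a P := by
  unfold W
  induction P with
  | zero => simp
  | succ P ih =>
    rw [Finset.sum_range_succ, ← ih]
    have h : Finset.Ico a (a + ((P + 1 : ℕ) : ℤ)) = insert (a + (P : ℤ)) (Finset.Ico a (a + P)) := by
      ext z
      simp only [Finset.mem_Ico, Finset.mem_insert]
      push_cast
      omega
    rw [h, Finset.sum_insert (by simp), add_comm]

theorem W_succ (f : ℤ → ℝ) (P : ℕ) (hf : ∀ z, f (z + P) = f z) (a : ℤ) :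
    W f (a + 1) P = W f a P := by
  unfold W
  have h1 := Finset.sum_range_succ (fun n : ℕ => f (a + n)) P
  have h2 := Finset.sum_range_succ' (fun n : ℕ => f (a + n)) P
  rw [h1] at h2
  have h3 : ∀ n : ℕ, f (a + ((n + 1 : ℕ) : ℤ)) = f (a + 1 + n) := by
    intro n
    congr 1
    push_cast
    ring
  simp only [h3] at h2
  have h4 : f (a + ((0 : ℕ) : ℤ)) = f (a + P) := by
    rw [Nat.cast_zero, add_zero, hf]
  rw [h4] at h2
  linarith

theorem W_nat (f : ℤ → ℝ) (P : ℕ) (hf : ∀ z, f (z + P) = f z) (a : ℤ) (k : ℕ) :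
    W f (a + k) P = W f a P := by
  induction k with
  | zero => simp
  | succ k ih =>
    rw [← ih, ← W_succ f P hf (a + k)]
    congr 1
    push_cast
    ring

theorem W_any (f : ℤ → ℝ) (P : ℕ) (hf : ∀ z, f (z + P) = f z) (a b : ℤ) :
    W f a P = W f b P := by
  rcases le_total a b with h | h
  · obtain ⟨k, hk⟩ := Int.eq_ofNat_of_zero_le (sub_nonneg.2 h)
    have : b = a + k := by omega
    rw [this, W_nat f P hf]
  · obtain ⟨k, hk⟩ := Int.eq_ofNat_of_zero_le (sub_nonneg.2 h)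
    have : a = b + k := by omega
    rw [this, W_nat f P hf]

/-! ### The heat kernel of the circle -/

theorem rr_neg (L : ℕ) (t : ℝ) (z : ℤ) : rr L t (-z) = rr L t z := by
  unfold rr
  congr 1
  refine Finset.sum_congr rfl fun n _ => ?_
  rw [Int.cast_neg, mul_neg, Real.cos_neg]

theorem rr_per {L : ℕ} (hL : 2 ≤ L) (t : ℝ) (z : ℤ) : rr L t (z + (2 * L : ℕ)) = rr L t z := by
  unfold rr
  congr 1
  refine Finset.sum_congr rfl fun n _ => ?_
  congr 1
  have hL0 : (L : ℝ) ≠ 0 := by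
    have : (0 : ℝ) < L := by exact_mod_cast (by omega : 0 < L)
    exact this.ne'
  have : Real.pi * n / L * ((z + (2 * L : ℕ) : ℤ) : ℝ) = Real.pi * n / L * z + (n : ℝ) * (2 * Real.pi) := by
    push_cast
    field_simp
  rw [this, Real.cos_add_nat_mul_two_pi]

/-- the smoothed kernel -/
noncomputable def Sr (L : ℕ) (s : ℝ) (z : ℤ) : ℝ := rr L s (z + 1) + 2 * rr L s z + rr L s (z - 1)

theorem Sr_neg (L : ℕ) (t : ℝ) (z : ℤ) : Sr L t (-z) = Sr L t z := by
  unfold Sr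
  have h1 : (-z + 1 : ℤ) = -(z - 1) := by ring
  have h2 : (-z - 1 : ℤ) = -(z + 1) := by ring
  rw [h1, h2, rr_neg, rr_neg, rr_neg]
  ring

theorem Sr_per {L : ℕ} (hL : 2 ≤ L) (t : ℝ) (z : ℤ) : Sr L t (z + (2 * L : ℕ)) = Sr L t z := by
  unfold Sr
  have h1 : (z + (2 * L : ℕ) + 1 : ℤ) = (z + 1) + (2 * L : ℕ) := by ring
  have h2 : (z + (2 * L : ℕ) - 1 : ℤ) = (z - 1) + (2 * L : ℕ) := by ring
  rw [h1, h2, rr_per hL, rr_per hL, rr_per hL]

/-! ### The matrix -/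

theorem nm_sum {L : ℕ} (hL : 2 ≤ L) (g : ℤ → ℝ) (h1 : g (-1) = 0) (h2 : g ((L : ℤ) - 1) = 0)
    (j : Fin L) : ∑ i : Fin (L - 1), nm L (L - 1) j i * g (i : ℕ) = g (j : ℕ) + g ((j : ℕ) - 1) := by
  have e0 := Fin.sum_univ_eq_sum_range (fun i : ℕ =>
    ((if i = (j : ℕ) then (1 : ℝ) else 0) + (if i + 1 = (j : ℕ) then 1 else 0)) * g i) (L - 1)
  have e1 : ∑ i : Fin (L - 1), nm L (L - 1) j i * g (i : ℕ) = ∑ i ∈ Finset.range (L - 1),
      ((if i = (j : ℕ) then (1 : ℝ) else 0) + (if i + 1 = (j : ℕ) then 1 else 0)) * g i := e0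
  rw [e1]
  simp only [add_mul, ite_mul, one_mul, zero_mul, Finset.sum_add_distrib]
  congr 1
  · rw [Finset.sum_ite_eq' (Finset.range (L - 1)) (j : ℕ) (fun i : ℕ => g i)]
    by_cases hj : (j : ℕ) ∈ Finset.range (L - 1)
    · rw [if_pos hj]
    · rw [if_neg hj]
      rw [Finset.mem_range] at hj
      have h3 := j.2
      have h4 : ((j : ℕ) : ℤ) = (L : ℤ) - 1 := by omega
      rw [h4, h2]
  · rcases Nat.eq_zero_or_pos (j : ℕ) with hj | hj
    · rw [Finset.sum_eq_zero (fun i _ => if_neg (by omega)), hj]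
      simp only [Nat.cast_zero, zero_sub]
      exact h1.symm
    · obtain ⟨k, hk⟩ : ∃ k : ℕ, (j : ℕ) = k + 1 := ⟨(j : ℕ) - 1, by omega⟩
      have h3 := j.2
      rw [hk]
      simp only [Nat.add_right_cancel_iff]
      rw [Finset.sum_ite_eq' (Finset.range (L - 1)) k (fun i : ℕ => g i),
        if_pos (Finset.mem_range.2 (by omega))]
      congr 1
      push_cast
      ring

/-- the extension of the Dirichlet kernel -/
noncomputable def qq (L : ℕ) (s : ℝ) (x y : ℤ) : ℝ := rr L s (x - y) - rr L s (x + y + 2)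

theorem qq1 (L : ℕ) (s : ℝ) (y : ℤ) : qq L s (-1) y = 0 := by
  unfold qq
  have h : (-1 - y : ℤ) = -(-1 + y + 2) := by ring
  rw [h, rr_neg, sub_self]

theorem qq2 {L : ℕ} (hL : 2 ≤ L) (s : ℝ) (y : ℤ) : qq L s ((L : ℤ) - 1) y = 0 := by
  unfold qq
  have h : ((L : ℤ) - 1 - y : ℤ) = -((L : ℤ) - 1 + y + 2) + (2 * L : ℕ) := by
    push_cast
    ring
  rw [h, rr_per hL, rr_neg, sub_self]

theorem qq3 (L : ℕ) (s : ℝ) (x : ℤ) : qq L s x (-1) = 0 := by
  unfold qq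
  have h : (x - -1 : ℤ) = x + -1 + 2 := by ring
  rw [h, sub_self]

theorem qq4 {L : ℕ} (hL : 2 ≤ L) (s : ℝ) (x : ℤ) : qq L s x ((L : ℤ) - 1) = 0 := by
  unfold qq
  have h : (x + ((L : ℤ) - 1) + 2 : ℤ) = (x - ((L : ℤ) - 1)) + (2 * L : ℕ) := by
    push_cast
    ring
  rw [h, rr_per hL, sub_self]

theorem npn {L : ℕ} (hL : 2 ≤ L) (s : ℝ)
    (hR : ∀ i j : Fin (L - 1), hk (lDD L) s i j = rr L s ((i : ℤ) - j) - rr L s ((i : ℤ) + j + 2))
    (a b : Fin L) :
    (nm L (L - 1) * (hk (lDD L) s * (nm L (L - 1))ᵀ)) a b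
      = Sr L s ((a : ℕ) - (b : ℕ)) - Sr L s ((a : ℕ) + (b : ℕ) + 1) := by
  have e1 : ∀ i : Fin (L - 1), (hk (lDD L) s * (nm L (L - 1))ᵀ) i b
      = qq L s (i : ℕ) (b : ℕ) + qq L s (i : ℕ) ((b : ℕ) - 1) := by
    intro i
    rw [Matrix.mul_apply, ← nm_sum hL (fun y => qq L s (i : ℕ) y) (qq3 L s _) (qq4 hL s _) b]
    refine Finset.sum_congr rfl fun k _ => ?_
    rw [Matrix.transpose_apply, hR i k, mul_comm]
    rfl
  rw [Matrix.mul_apply, Finset.sum_congr rfl fun i _ => by rw [e1 i],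
    nm_sum hL (fun x => qq L s x (b : ℕ) + qq L s x ((b : ℕ) - 1)) (by rw [qq1, qq1, add_zero])
      (by rw [qq2 hL, qq2 hL, add_zero]) a]
  simp only [qq, Sr]
  have f1 : (((a : ℕ) : ℤ) - (((b : ℕ) : ℤ) - 1)) = ((a : ℕ) : ℤ) - ((b : ℕ) : ℤ) + 1 := by ring
  have f2 : (((a : ℕ) : ℤ) + (((b : ℕ) : ℤ) - 1) + 2) = ((a : ℕ) : ℤ) + ((b : ℕ) : ℤ) + 1 := by ring
  have f3 : (((a : ℕ) : ℤ) - 1 - ((b : ℕ) : ℤ)) = ((a : ℕ) : ℤ) - ((b : ℕ) : ℤ) - 1 := by ring
  have f4 : (((a : ℕ) : ℤ) - 1 + ((b : ℕ) : ℤ) + 2) = ((a : ℕ) : ℤ) + ((b : ℕ) : ℤ) + 1 := by ring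
  have f5 : (((a : ℕ) : ℤ) - 1 - (((b : ℕ) : ℤ) - 1)) = ((a : ℕ) : ℤ) - ((b : ℕ) : ℤ) := by ring
  have f6 : (((a : ℕ) : ℤ) - 1 + (((b : ℕ) : ℤ) - 1) + 2) = ((a : ℕ) : ℤ) + ((b : ℕ) : ℤ) + 1 - 1 := by
    ring
  have f7 : (((a : ℕ) : ℤ) + ((b : ℕ) : ℤ) + 2) = ((a : ℕ) : ℤ) + ((b : ℕ) : ℤ) + 1 + 1 := by ring
  rw [f1, f2, f3, f4, f5, f6, f7]
  ring

theorem nn_eq {L : ℕ} (hL : 2 ≤ L) (hR : S_R) (t s : ℝ) :
    nn L t s = ∑ j ∈ Finset.range L, ∑ k ∈ Finset.range L,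
      (rr L t ((j : ℤ) - k) + rr L t ((j : ℤ) + k + 1)) *
        (Sr L s ((j : ℤ) - k) - Sr L s ((j : ℤ) + k + 1)) := by
  unfold nn
  rw [Matrix.mul_assoc, Matrix.mul_assoc, Matrix.trace]
  have e : ∀ j : Fin L, (hk (lNN L) t * (nm L (L - 1) * (hk (lDD L) s * (nm L (L - 1))ᵀ))).diag j
      = ∑ k ∈ Finset.range L, (rr L t (((j : ℕ) : ℤ) - k) + rr L t (((j : ℕ) : ℤ) + k + 1)) *
        (Sr L s (((j : ℕ) : ℤ) - k) - Sr L s (((j : ℕ) : ℤ) + k + 1)) := by
    intro j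
    rw [Matrix.diag_apply, Matrix.mul_apply, ← Fin.sum_univ_eq_sum_range (fun k : ℕ =>
      (rr L t (((j : ℕ) : ℤ) - k) + rr L t (((j : ℕ) : ℤ) + k + 1)) *
        (Sr L s (((j : ℕ) : ℤ) - k) - Sr L s (((j : ℕ) : ℤ) + k + 1))) L]
    refine Finset.sum_congr rfl fun k _ => ?_
    rw [npn hL s (hR L hL s).1 k j, (hR L hL t).2 j k]
    have g1 : ((k : ℕ) : ℤ) - ((j : ℕ) : ℤ) = -(((j : ℕ) : ℤ) - ((k : ℕ) : ℤ)) := by ring
    have g2 : ((k : ℕ) : ℤ) + ((j : ℕ) : ℤ) + 1 = ((j : ℕ) : ℤ) + ((k : ℕ) : ℤ) + 1 := by ring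
    rw [g1, g2, Sr_neg]
  rw [Finset.sum_congr rfl fun j _ => e j]
  exact Fin.sum_univ_eq_sum_range (fun j : ℕ => ∑ k ∈ Finset.range L,
    (rr L t ((j : ℤ) - k) + rr L t ((j : ℤ) + k + 1)) *
        (Sr L s ((j : ℤ) - k) - Sr L s ((j : ℤ) + k + 1))) L


/-! ### The spectral form -/

/-- the terms of `rr` -/
noncomputable def ff (L : ℕ) (T : ℝ) (z : ℤ) (n : ℤ) : ℝ :=
  Real.exp (-T * ek (Real.pi * n / L)) * Real.cos (Real.pi * n / L * z)

theorem ff_per {L : ℕ} (hL : 2 ≤ L) (T : ℝ) (z n : ℤ) : ff L T z (n + (2 * L : ℕ)) = ff L T z n := by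
  unfold ff ek
  have hL0 : (L : ℝ) ≠ 0 := by
    have : (0 : ℝ) < L := by exact_mod_cast (by omega : 0 < L)
    exact this.ne'
  have e1 : Real.pi * ((n + (2 * L : ℕ) : ℤ) : ℝ) / L = Real.pi * n / L + 2 * Real.pi := by
    push_cast
    field_simp
  have e2 : Real.pi * ((n + (2 * L : ℕ) : ℤ) : ℝ) / L * z =
      Real.pi * n / L * z + (z : ℝ) * (2 * Real.pi) := by
    rw [e1]
    ring
  rw [e2, e1, Real.cos_add_two_pi, Real.cos_add_int_mul_two_pi]

theorem rr_ff {L : ℕ} (hL : 2 ≤ L) (T : ℝ) (z : ℤ) :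
    rr L T z = (1 / (2 * (L : ℝ))) * ∑ n ∈ Finset.Ico (-(L : ℤ)) L, ff L T z n := by
  have h := W_Ico (ff L T z) (-(L : ℤ)) (2 * L)
  rw [W_any _ _ (ff_per hL T z) _ 0] at h
  have e : (-(L : ℤ)) + ((2 * L : ℕ) : ℤ) = L := by
    push_cast
    ring
  rw [e] at h
  rw [h]
  unfold rr W ff
  congr 1
  refine Finset.sum_congr rfl fun n _ => ?_
  rw [zero_add, Int.cast_natCast]

/-- the midpoints -/
noncomputable def xx (L j : ℕ) : ℝ := Real.pi * (2 * j + 1) / (2 * L)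

/-- the overlap -/
noncomputable def JJ (L : ℕ) (m n : ℤ) : ℝ :=
  (1 / (L : ℝ)) * ∑ j ∈ Finset.range L, Real.cos (m * xx L j) * Real.sin (n * xx L j)

theorem u_eq {L : ℕ} (hL : 2 ≤ L) (T : ℝ) (j k : ℕ) :
    rr L T ((j : ℤ) - k) + rr L T ((j : ℤ) + k + 1) =
      ∑ m ∈ Finset.Ico (-(L : ℤ)) L, (1 / (L : ℝ)) * Real.exp (-T * ek (Real.pi * m / L)) *
        (Real.cos (m * xx L j) * Real.cos (m * xx L k)) := by
  have hL0 : (L : ℝ) ≠ 0 := by
    have : (0 : ℝ) < L := by exact_mod_cast (by omega : 0 < L)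
    exact this.ne'
  rw [rr_ff hL, rr_ff hL, ← mul_add, ← Finset.sum_add_distrib, Finset.mul_sum]
  refine Finset.sum_congr rfl fun m _ => ?_
  unfold ff
  have e1 : Real.pi * m / L * (((j : ℤ) - k : ℤ) : ℝ) = m * xx L j - m * xx L k := by
    unfold xx
    push_cast
    field_simp
    ring
  have e2 : Real.pi * m / L * (((j : ℤ) + k + 1 : ℤ) : ℝ) = m * xx L j + m * xx L k := by
    unfold xx
    push_cast
    field_simp
    ring
  rw [e1, e2, Real.cos_sub, Real.cos_add]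
  field_simp
  ring

theorem v_eq {L : ℕ} (hL : 2 ≤ L) (T : ℝ) (j k : ℕ) :
    Sr L T ((j : ℤ) - k) - Sr L T ((j : ℤ) + k + 1) =
      ∑ n ∈ Finset.Ico (-(L : ℤ)) L, (1 / (L : ℝ)) * (Real.exp (-T * ek (Real.pi * n / L)) *
        (2 + 2 * Real.cos (Real.pi * n / L))) * (Real.sin (n * xx L j) * Real.sin (n * xx L k)) := by
  have hL0 : (L : ℝ) ≠ 0 := by
    have : (0 : ℝ) < L := by exact_mod_cast (by omega : 0 < L)
    exact this.ne'
  have key : ∀ z : ℤ, Sr L T z = ∑ n ∈ Finset.Ico (-(L : ℤ)) L, (1 / (2 * (L : ℝ))) *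
      (Real.exp (-T * ek (Real.pi * n / L)) * (2 + 2 * Real.cos (Real.pi * n / L))) *
        Real.cos (Real.pi * n / L * z) := by
    intro z
    unfold Sr
    rw [rr_ff hL, rr_ff hL, rr_ff hL, mul_left_comm, ← mul_add, ← mul_add, Finset.mul_sum,
      ← Finset.sum_add_distrib, ← Finset.sum_add_distrib, Finset.mul_sum]
    refine Finset.sum_congr rfl fun n _ => ?_
    unfold ff
    have e1 : Real.pi * n / L * ((z + 1 : ℤ) : ℝ) = Real.pi * n / L * z + Real.pi * n / L := by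
      push_cast
      ring
    have e2 : Real.pi * n / L * ((z - 1 : ℤ) : ℝ) = Real.pi * n / L * z - Real.pi * n / L := by
      push_cast
      ring
    rw [e1, e2, Real.cos_sub, Real.cos_add]
    ring
  rw [key, key, ← Finset.sum_sub_distrib]
  refine Finset.sum_congr rfl fun n _ => ?_
  have e1 : Real.pi * n / L * (((j : ℤ) - k : ℤ) : ℝ) = n * xx L j - n * xx L k := by
    unfold xx
    push_cast
    field_simp
    ring
  have e2 : Real.pi * n / L * (((j : ℤ) + k + 1 : ℤ) : ℝ) = n * xx L j + n * xx L k := by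
    unfold xx
    push_cast
    field_simp
    ring
  rw [e1, e2, Real.cos_sub, Real.cos_add]
  field_simp
  ring

/-- the terms of the double series -/
noncomputable def GT (L : ℕ) (T S : ℝ) (q : ℤ × ℤ) : ℝ :=
  Real.exp (-T * ek (Real.pi * q.1 / L)) * (Real.exp (-S * ek (Real.pi * q.2 / L)) *
    (2 + 2 * Real.cos (Real.pi * q.2 / L))) * JJ L q.1 q.2 ^ 2

theorem nn_GT {L : ℕ} (hL : 2 ≤ L) (hR : S_R) (T S : ℝ) :
    nn L T S = ∑ q ∈ Finset.Ico (-(L : ℤ)) L ×ˢ Finset.Ico (-(L : ℤ)) L, GT L T S q := by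
  rw [nn_eq hL hR, ← Finset.sum_product']
  have e1 : ∀ p ∈ Finset.range L ×ˢ Finset.range L,
      (rr L T ((p.1 : ℤ) - p.2) + rr L T ((p.1 : ℤ) + p.2 + 1)) *
        (Sr L S ((p.1 : ℤ) - p.2) - Sr L S ((p.1 : ℤ) + p.2 + 1)) =
      ∑ q ∈ Finset.Ico (-(L : ℤ)) L ×ˢ Finset.Ico (-(L : ℤ)) L,
        ((1 / (L : ℝ)) * Real.exp (-T * ek (Real.pi * q.1 / L)) *
        (Real.cos (q.1 * xx L p.1) * Real.cos (q.1 * xx L p.2))) *
        ((1 / (L : ℝ)) * (Real.exp (-S * ek (Real.pi * q.2 / L)) *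
        (2 + 2 * Real.cos (Real.pi * q.2 / L))) *
        (Real.sin (q.2 * xx L p.1) * Real.sin (q.2 * xx L p.2))) := by
    intro p _
    rw [u_eq hL, v_eq hL, Finset.sum_mul_sum, ← Finset.sum_product']
  rw [Finset.sum_congr rfl e1, Finset.sum_comm]
  refine Finset.sum_congr rfl fun q _ => ?_
  have e2 : JJ L q.1 q.2 ^ 2 = ∑ p ∈ Finset.range L ×ˢ Finset.range L, (1 / (L : ℝ)) * (1 / (L : ℝ)) *
      ((Real.cos (q.1 * xx L p.1) * Real.sin (q.2 * xx L p.1)) *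
        (Real.cos (q.1 * xx L p.2) * Real.sin (q.2 * xx L p.2))) := by
    unfold JJ
    rw [← Finset.mul_sum, Finset.sum_product]
    have e3 : (∑ j ∈ Finset.range L, Real.cos (q.1 * xx L j) * Real.sin (q.2 * xx L j)) *
        (∑ j ∈ Finset.range L, Real.cos (q.1 * xx L j) * Real.sin (q.2 * xx L j)) =
        ∑ x ∈ Finset.range L, ∑ y ∈ Finset.range L,
          (Real.cos (q.1 * xx L x) * Real.sin (q.2 * xx L x)) *
            (Real.cos (q.1 * xx L y) * Real.sin (q.2 * xx L y)) := Finset.sum_mul_sum _ _ _ _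
    change _ = 1 / (L : ℝ) * (1 / L) * ∑ x ∈ Finset.range L, ∑ y ∈ Finset.range L,
          (Real.cos (q.1 * xx L x) * Real.sin (q.2 * xx L x)) *
            (Real.cos (q.1 * xx L y) * Real.sin (q.2 * xx L y))
    rw [← e3]
    ring
  unfold GT
  rw [e2, Finset.mul_sum]
  refine Finset.sum_congr rfl fun p _ => ?_
  ring

/-! ### Limits -/

theorem lim_sin (c : ℝ) : Tendsto (fun L : ℕ => 2 * (L : ℝ) * Real.sin (c / (2 * L))) atTop (𝓝 c) := by
  rcases eq_or_ne c 0 with rfl | hc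
  · simp
  have h1 : Tendsto (fun L : ℕ => c / (2 * (L : ℝ))) atTop (𝓝 0) := by
    refine Tendsto.div_atTop tendsto_const_nhds ?_
    exact Tendsto.const_mul_atTop two_pos tendsto_natCast_atTop_atTop
  have h2 := ((Real.continuous_sinc.tendsto 0).comp h1).const_mul c
  rw [Real.sinc_zero, mul_one] at h2
  refine h2.congr' ?_
  filter_upwards [eventually_gt_atTop 0] with L hL
  have hL0 : (0 : ℝ) < L := by exact_mod_cast hL
  have hy : c / (2 * (L : ℝ)) ≠ 0 := div_ne_zero hc (by positivity)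
  simp only [Function.comp]
  rw [Real.sinc_of_ne_zero hy]
  field_simp

theorem ek_eq {L : ℕ} (hL : 0 < L) (m : ℤ) :
    (L : ℝ) ^ 2 * ek (Real.pi * m / L) = (2 * (L : ℝ) * Real.sin (Real.pi * m / (2 * L))) ^ 2 := by
  have hL0 : (0 : ℝ) < L := by exact_mod_cast hL
  unfold ek
  have e : Real.pi * m / L = 2 * (Real.pi * m / (2 * L)) := by
    field_simp
  rw [e, Real.cos_two_mul, Real.cos_sq']
  ring

theorem lim_exp (t : ℝ) (m : ℤ) :
    Tendsto (fun L : ℕ => Real.exp (-((L : ℝ) ^ 2 * t) * ek (Real.pi * m / L))) atTop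
      (𝓝 (Real.exp (-t * (Real.pi * m) ^ 2))) := by
  have h := ((lim_sin (Real.pi * m)).pow 2).const_mul (-t)
  refine ((Real.continuous_exp.tendsto _).comp h).congr' ?_
  filter_upwards [eventually_gt_atTop 0] with L hL
  simp only [Function.comp]
  rw [← ek_eq hL m]
  congr 1
  ring

theorem ek_ge {L : ℕ} (hL : 0 < L) {m : ℤ} (h1 : -(L : ℤ) ≤ m) (h2 : m ≤ L) :
    4 * (m : ℝ) ^ 2 ≤ (L : ℝ) ^ 2 * ek (Real.pi * m / L) := by
  have hL0 : (0 : ℝ) < L := by exact_mod_cast hL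
  have hm : |(m : ℝ)| ≤ L := by
    rw [abs_le]
    constructor
    · exact_mod_cast h1
    · exact_mod_cast h2
  have e0 : |Real.pi * m / (2 * L)| = Real.pi * |(m : ℝ)| / (2 * L) := by
    rw [abs_div, abs_mul, abs_of_pos Real.pi_pos, abs_of_pos (by positivity : (0 : ℝ) < 2 * L)]
  have hx : |Real.pi * m / (2 * L)| ≤ Real.pi / 2 := by
    rw [e0, div_le_div_iff₀ (by positivity) two_pos]
    nlinarith [Real.pi_pos]
  have h := Real.mul_abs_le_abs_sin hx
  rw [e0] at h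
  have e : 2 / Real.pi * (Real.pi * |(m : ℝ)| / (2 * L)) = |(m : ℝ)| / L := by
    have := Real.pi_pos.ne'
    field_simp
  rw [e, div_le_iff₀ hL0] at h
  rw [ek_eq hL]
  have h3 : |(m : ℝ)| ^ 2 ≤ (|Real.sin (Real.pi * m / (2 * L))| * L) ^ 2 :=
    pow_le_pow_left₀ (abs_nonneg _) h 2
  rw [mul_pow, sq_abs, sq_abs] at h3
  nlinarith

/-- one frequency -/
noncomputable def TT (L : ℕ) (a : ℤ) : ℝ := (1 / (L : ℝ)) * ∑ j ∈ Finset.range L, Real.sin (a * xx L j)

theorem TT_mul {L : ℕ} (hL : 0 < L) (a : ℤ) :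
    TT L a * (2 * (L : ℝ) * Real.sin (Real.pi * a / (2 * L))) = 1 - Real.cos (Real.pi * a) := by
  have hL0 : (0 : ℝ) < L := by exact_mod_cast hL
  have h1 : ∀ j : ℕ, Real.sin (a * xx L j) * (2 * Real.sin (Real.pi * a / (2 * L))) =
      Real.cos (Real.pi * a / L * (j : ℕ)) - Real.cos (Real.pi * a / L * ((j + 1 : ℕ) : ℝ)) := by
    intro j
    have e1 : Real.pi * a / L * (j : ℕ) = a * xx L j - Real.pi * a / (2 * L) := by
      unfold xx
      field_simp
      ring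
    have e2 : Real.pi * a / L * ((j + 1 : ℕ) : ℝ) = a * xx L j + Real.pi * a / (2 * L) := by
      unfold xx
      push_cast
      field_simp
      ring
    rw [e1, e2, Real.cos_sub, Real.cos_add]
    ring
  have h2 : (∑ j ∈ Finset.range L, Real.sin (a * xx L j)) * (2 * Real.sin (Real.pi * a / (2 * L))) =
      1 - Real.cos (Real.pi * a) := by
    rw [Finset.sum_mul, Finset.sum_congr rfl fun j _ => h1 j,
      Finset.sum_range_sub' (fun j : ℕ => Real.cos (Real.pi * a / L * (j : ℝ)))]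
    have e3 : Real.pi * a / L * (L : ℝ) = Real.pi * a := by field_simp
    rw [e3]
    simp
  rw [← h2]
  unfold TT
  field_simp

theorem lim_TT (a : ℤ) : ∃ l, Tendsto (fun L : ℕ => TT L a) atTop (𝓝 l) := by
  rcases eq_or_ne a 0 with rfl | ha
  · refine ⟨0, ?_⟩
    have : (fun L : ℕ => TT L 0) = fun _ => 0 := by
      funext L
      unfold TT
      simp
    rw [this]
    exact tendsto_const_nhds
  · have hp : Real.pi * (a : ℝ) ≠ 0 := mul_ne_zero Real.pi_pos.ne' (by exact_mod_cast ha)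
    refine ⟨(1 - Real.cos (Real.pi * a)) / (Real.pi * a), ?_⟩
    have h := lim_sin (Real.pi * a)
    refine ((tendsto_const_nhds (x := 1 - Real.cos (Real.pi * a))).div h hp).congr' ?_
    filter_upwards [eventually_gt_atTop 0, h.eventually_ne hp] with L hL hne
    rw [Pi.div_apply, ← TT_mul hL a]
    exact mul_div_cancel_right₀ _ hne

theorem JJ_TT (L : ℕ) (m n : ℤ) : JJ L m n = (TT L (m + n) + TT L (n - m)) / 2 := by
  unfold JJ TT
  rw [← mul_add, ← Finset.sum_add_distrib, mul_div_assoc, Finset.sum_div]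
  congr 1
  refine Finset.sum_congr rfl fun j _ => ?_
  have e1 : ((m + n : ℤ) : ℝ) * xx L j = m * xx L j + n * xx L j := by
    push_cast
    ring
  have e2 : ((n - m : ℤ) : ℝ) * xx L j = n * xx L j - m * xx L j := by
    push_cast
    ring
  rw [e1, e2, Real.sin_add, Real.sin_sub]
  ring

theorem lim_JJ (m n : ℤ) : ∃ l, Tendsto (fun L : ℕ => JJ L m n) atTop (𝓝 l) := by
  obtain ⟨l1, h1⟩ := lim_TT (m + n)
  obtain ⟨l2, h2⟩ := lim_TT (n - m)
  refine ⟨(l1 + l2) / 2, ?_⟩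
  refine ((h1.add h2).div_const 2).congr fun L => ?_
  exact (JJ_TT L m n).symm

theorem JJ_sq (L : ℕ) (m n : ℤ) : JJ L m n ^ 2 ≤ 1 := by
  have h : |JJ L m n| ≤ 1 := by
    unfold JJ
    rw [abs_mul, abs_of_nonneg (by positivity : (0 : ℝ) ≤ 1 / (L : ℝ))]
    have h1 : |∑ j ∈ Finset.range L, Real.cos (m * xx L j) * Real.sin (n * xx L j)| ≤ L := by
      refine (Finset.abs_sum_le_sum_abs _ _).trans ?_
      calc ∑ j ∈ Finset.range L, |Real.cos (m * xx L j) * Real.sin (n * xx L j)| ≤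
          ∑ j ∈ Finset.range L, (1 : ℝ) := by
            refine Finset.sum_le_sum fun j _ => ?_
            rw [abs_mul]
            exact mul_le_one₀ (Real.abs_cos_le_one _) (abs_nonneg _) (Real.abs_sin_le_one _)
        _ = L := by simp
    rcases Nat.eq_zero_or_pos L with rfl | hL
    · simp
    · have hL0 : (0 : ℝ) < L := by exact_mod_cast hL
      rw [one_div, inv_mul_le_iff₀ hL0, mul_one]
      exact h1
  rw [← sq_abs]
  exact pow_le_one₀ (abs_nonneg _) h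

theorem sum_int {t : ℝ} (ht : 0 < t) : Summable fun m : ℤ => Real.exp (-(4 * (m : ℝ) ^ 2 * t)) := by
  have h0 : Summable fun n : ℕ => Real.exp (-(4 * t)) ^ n :=
    summable_geometric_of_lt_one (Real.exp_pos _).le (Real.exp_lt_one_iff.2 (by linarith))
  have h1 : Summable fun n : ℕ => Real.exp (-(4 * ((n : ℤ) : ℝ) ^ 2 * t)) := by
    refine Summable.of_nonneg_of_le (fun n => (Real.exp_pos _).le) (fun n => ?_) h0
    rw [← Real.exp_nat_mul]
    refine Real.exp_le_exp.2 ?_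
    have h2 : (n : ℝ) ≤ (n : ℝ) ^ 2 := by
      have : n ≤ n ^ 2 := Nat.le_self_pow two_ne_zero n
      exact_mod_cast this
    have h3 : 0 ≤ ((n : ℝ) ^ 2 - n) * t := mul_nonneg (by linarith) ht.le
    rw [Int.cast_natCast]
    nlinarith
  refine Summable.of_nat_of_neg h1 ?_
  refine h1.congr fun n => ?_
  congr 2
  push_cast
  ring

/-- **Task AH-SN.** -/
theorem tsn (hR : Pool.Agent.H586.AF.S_R) : Pool.Agent.H586.AF.EE.S_SN := by
  intro t s ht hs
  choose lJ hlJ using lim_JJ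
  let g : ℤ × ℤ → ℝ := fun q => Real.exp (-t * (Real.pi * q.1) ^ 2) *
    (Real.exp (-s * (Real.pi * q.2) ^ 2) * (2 + 2 * 1)) * lJ q.1 q.2 ^ 2
  let F : ℕ → ℤ × ℤ → ℝ := fun L q => if q ∈ Finset.Ico (-(L : ℤ)) L ×ˢ Finset.Ico (-(L : ℤ)) L then
    GT L ((L : ℝ) ^ 2 * t) ((L : ℝ) ^ 2 * s) q else 0
  refine ⟨∑' q, g q, ?_⟩
  have hmain : Tendsto (fun L : ℕ => ∑' q, F L q) atTop (𝓝 (∑' q, g q)) := by
    refine tendsto_tsum_of_dominated_convergence (bound := fun q : ℤ × ℤ =>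
      (Real.exp (-(4 * (q.1 : ℝ) ^ 2 * t)) * Real.exp (-(4 * (q.2 : ℝ) ^ 2 * s))) * 4) ?_ ?_ ?_
    · exact (((sum_int ht).mul_of_nonneg (sum_int hs) (fun m => (Real.exp_pos _).le)
        (fun m => (Real.exp_pos _).le))).mul_right 4
    · intro q
      have hcos : Tendsto (fun L : ℕ => Real.cos (Real.pi * q.2 / L)) atTop (𝓝 1) := by
        have h1 : Tendsto (fun L : ℕ => Real.pi * q.2 / (L : ℝ)) atTop (𝓝 0) :=
          Tendsto.div_atTop tendsto_const_nhds tendsto_natCast_atTop_atTop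
        have h2 := (Real.continuous_cos.tendsto 0).comp h1
        rw [Real.cos_zero] at h2
        exact h2
      have h3 := ((lim_exp t q.1).mul ((lim_exp s q.2).mul ((hcos.const_mul 2).const_add 2))).mul
        ((hlJ q.1 q.2).pow 2)
      refine h3.congr' ?_
      filter_upwards [eventually_gt_atTop (max q.1.natAbs q.2.natAbs)] with L hL
      have ha := lt_of_le_of_lt (le_max_left _ _) hL
      have hb := lt_of_le_of_lt (le_max_right _ _) hL
      have hmem : q ∈ Finset.Ico (-(L : ℤ)) L ×ˢ Finset.Ico (-(L : ℤ)) L := by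
        rw [Finset.mem_product, Finset.mem_Ico, Finset.mem_Ico]
        omega
      simp only [F]
      rw [if_pos hmem]
      rfl
    · filter_upwards [eventually_gt_atTop 0] with L hL q
      simp only [F]
      split_ifs with hq
      · rw [Finset.mem_product, Finset.mem_Ico, Finset.mem_Ico] at hq
        obtain ⟨⟨a1, a2⟩, b1, b2⟩ := hq
        unfold GT
        have c1 := Real.neg_one_le_cos (Real.pi * q.2 / L)
        have c2 := Real.cos_le_one (Real.pi * q.2 / L)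
        have hc0 : 0 ≤ 2 + 2 * Real.cos (Real.pi * q.2 / L) := by linarith
        rw [Real.norm_of_nonneg (by positivity)]
        have k1 : Real.exp (-((L : ℝ) ^ 2 * t) * ek (Real.pi * q.1 / L)) ≤
            Real.exp (-(4 * (q.1 : ℝ) ^ 2 * t)) := by
          refine Real.exp_le_exp.2 ?_
          have := mul_le_mul_of_nonneg_right (ek_ge hL a1 a2.le) ht.le
          linarith
        have k2 : Real.exp (-((L : ℝ) ^ 2 * s) * ek (Real.pi * q.2 / L)) ≤
            Real.exp (-(4 * (q.2 : ℝ) ^ 2 * s)) := by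
          refine Real.exp_le_exp.2 ?_
          have := mul_le_mul_of_nonneg_right (ek_ge hL b1 b2.le) hs.le
          linarith
        calc Real.exp (-((L : ℝ) ^ 2 * t) * ek (Real.pi * q.1 / L)) *
            (Real.exp (-((L : ℝ) ^ 2 * s) * ek (Real.pi * q.2 / L)) *
              (2 + 2 * Real.cos (Real.pi * q.2 / L))) * JJ L q.1 q.2 ^ 2 ≤
            Real.exp (-(4 * (q.1 : ℝ) ^ 2 * t)) * (Real.exp (-(4 * (q.2 : ℝ) ^ 2 * s)) * 4) * 1 := by
              gcongr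
              · linarith
              · exact JJ_sq L q.1 q.2
          _ = _ := by ring
      · rw [norm_zero]
        positivity
  refine hmain.congr' ?_
  filter_upwards [eventually_ge_atTop 2] with L hL
  rw [nn_GT hL hR, tsum_eq_sum (s := Finset.Ico (-(L : ℤ)) L ×ˢ Finset.Ico (-(L : ℤ)) L)
    (fun q hq => if_neg hq)]
  exact Finset.sum_congr rfl fun q hq => if_pos hq

end Pool.Agent.H813.AH
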